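import Mathlib
import Pool.Agent.Lib.MP_b5ead8_al_C.FinalPure

/-!
# Surjections `F_{g+h} → F_g × F_h` and pure primitive elements

Let `π` be a surjective homomorphism from a free group of rank `(g + 1) + (h + 1)` onto
`F_{g+1} × F_{h+1}`.  Then `π` is the standard map composed with an automorphism of the free group
if and only if some basis of the free group contains `h` elements which are mapped to conjugates
of `(1, b_1), ..., (1, b_h)`, where `b_1, ..., b_{h+1}` is a basis of `F_{h+1}`; and if and only if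
some basis contains `g` elements which are mapped to conjugates of `(a_1, 1), ..., (a_g, 1)`, where
`a_1, ..., a_{g+1}` is a basis of `F_{g+1}`.
-/

set_option autoImplicit false

namespace Pool.Agent.Results.MP_b5ead8_al.PureConjugates

theorem result (g h : ℕ) (π : FreeGroup (Fin (g + 1) ⊕ Fin (h + 1)) →*
      FreeGroup (Fin (g + 1)) × FreeGroup (Fin (h + 1))) (hπ : Function.Surjective π) :
    ((∃ (β : MulAut (FreeGroup (Fin (g + 1) ⊕ Fin (h + 1))))
        (θ : MulAut (FreeGroup (Fin (h + 1)))), ∀ j : Fin h,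
        IsConj (π (β (FreeGroup.of (Sum.inr j.castSucc))))
          ((1, θ (FreeGroup.of j.castSucc)) :
            FreeGroup (Fin (g + 1)) × FreeGroup (Fin (h + 1)))) ↔
      ∃ α : MulAut (FreeGroup (Fin (g + 1) ⊕ Fin (h + 1))),
        π = (FreeGroup.lift (Sum.elim
          (fun i => ((FreeGroup.of i, 1) : FreeGroup (Fin (g + 1)) × FreeGroup (Fin (h + 1))))
          (fun j => ((1, FreeGroup.of j) :
            FreeGroup (Fin (g + 1)) × FreeGroup (Fin (h + 1)))))).comp α.toMonoidHom) ∧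
    ((∃ (β : MulAut (FreeGroup (Fin (g + 1) ⊕ Fin (h + 1))))
        (θ : MulAut (FreeGroup (Fin (g + 1)))), ∀ i : Fin g,
        IsConj (π (β (FreeGroup.of (Sum.inl i.castSucc))))
          ((θ (FreeGroup.of i.castSucc), 1) :
            FreeGroup (Fin (g + 1)) × FreeGroup (Fin (h + 1)))) ↔
      ∃ α : MulAut (FreeGroup (Fin (g + 1) ⊕ Fin (h + 1))),
        π = (FreeGroup.lift (Sum.elim
          (fun i => ((FreeGroup.of i, 1) : FreeGroup (Fin (g + 1)) × FreeGroup (Fin (h + 1))))
          (fun j => ((1, FreeGroup.of j) :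
            FreeGroup (Fin (g + 1)) × FreeGroup (Fin (h + 1)))))).comp α.toMonoidHom) := by
  refine ⟨⟨?_, ?_⟩, ⟨?_, ?_⟩⟩
  · rintro ⟨β, θ, h1⟩
    exact MPb5ead8.Std.exists_aut_of_basis π β (MPb5ead8.final_pure_snd _ _ π hπ β θ h1)
  · rintro ⟨α, rfl⟩
    refine ⟨α⁻¹, 1, fun j => ?_⟩
    have h2 : α.toMonoidHom (α⁻¹ (FreeGroup.of (Sum.inr j.castSucc))) =
        FreeGroup.of (Sum.inr j.castSucc) := MulEquiv.apply_symm_apply α _
    rw [MonoidHom.comp_apply, h2, FreeGroup.lift_apply_of]
    exact IsConj.refl _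
  · rintro ⟨β, θ, h1⟩
    exact MPb5ead8.Std.exists_aut_of_basis π β (MPb5ead8.final_pure_fst _ _ π hπ β θ h1)
  · rintro ⟨α, rfl⟩
    refine ⟨α⁻¹, 1, fun i => ?_⟩
    have h2 : α.toMonoidHom (α⁻¹ (FreeGroup.of (Sum.inl i.castSucc))) =
        FreeGroup.of (Sum.inl i.castSucc) := MulEquiv.apply_symm_apply α _
    rw [MonoidHom.comp_apply, h2, FreeGroup.lift_apply_of]
    exact IsConj.refl _

end Pool.Agent.Results.MP_b5ead8_al.PureConjugates
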