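import Mathlib
import Pool.Agent.Lib.MP_b5ead8_al_Q.Asm
import Pool.Agent.Lib.MP_b5ead8_al_Q.Pol

/-!
# Surjections `F_{g+h} → F_g × F_h` are standard modulo solvable quotients of one factor

Let `π` be a surjective homomorphism from the free group of rank `g + h`, `g ≥ 2`, onto
`F_g × F_h`, and let `φ` be a homomorphism from `F_h` onto a group `Q`. Suppose that `Q` is
polycyclic (solvable, with all subgroups finitely generated) or, more generally, that `Q` has a
finite series of normal subgroups in which every factor `M / K` is central in `Q / K`, or is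
abelian and has the property that every normal subgroup `L` of `Q` with `K < L ≤ M` has finite
index in `M`. Then `(id × φ) ∘ π = (id × φ) ∘ π' ∘ α` for an automorphism `α` of the free group,
where `π'` is the standard map.
-/

set_option autoImplicit false

namespace Pool.Agent.Results.MP_b5ead8_al.SolvableQuotients

theorem result (g h : ℕ) (hg : 2 ≤ g)
    (π : FreeGroup (Fin g ⊕ Fin h) →* FreeGroup (Fin g) × FreeGroup (Fin h))
    (hπ : Function.Surjective π) (Q : Type) [Group Q] (φ : FreeGroup (Fin h) →* Q)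
    (hφ : Function.Surjective φ)
    (hQ : (Group.IsSolvable Q ∧ ∀ H : Subgroup Q, H.FG) ∨
      ∃ (n : ℕ) (M : ℕ → Subgroup Q), (∀ i, (M i).Normal) ∧ M 0 = ⊥ ∧ M n = ⊤ ∧
        ∀ i < n, M i ≤ M (i + 1) ∧ (⁅M (i + 1), (⊤ : Subgroup Q)⁆ ≤ M i ∨
          (⁅M (i + 1), M (i + 1)⁆ ≤ M i ∧ ∀ L : Subgroup Q, L.Normal → M i < L →
            L ≤ M (i + 1) → L.relIndex (M (i + 1)) ≠ 0))) :
    ∃ α : MulAut (FreeGroup (Fin g ⊕ Fin h)),
      ((MonoidHom.id (FreeGroup (Fin g))).prodMap φ).comp π =
      ((MonoidHom.id (FreeGroup (Fin g))).prodMap φ).comp ((FreeGroup.lift (Sum.elim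
        (fun i : Fin g => ((FreeGroup.of i, 1) : FreeGroup (Fin g) × FreeGroup (Fin h)))
        (fun j : Fin h => ((1, FreeGroup.of j) : FreeGroup (Fin g) × FreeGroup (Fin h))))).comp
        α.toMonoidHom) := by
  refine Pool.Agent.MPb5eQ.fin_quot g h hg π hπ Q φ hφ ?_
  rcases hQ with ⟨h1, h2⟩ | h1
  · exact Pool.Agent.MPb5eQ.pol_from h1 h2 ⊥ inferInstance
  · exact h1

end Pool.Agent.Results.MP_b5ead8_al.SolvableQuotients
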