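import Mathlib
import Pool.Agent.Lib.MP_b5ead8_al_AC.FinalAll

/-!
# Stably standard surjections `F_{g+h} → F_g × F_h` and the stable Andrews-Curtis conjecture

A surjective homomorphism `π : F_{g+h} → F_g × F_h` is called stably standard if, after adding
`m` generators which are mapped to new basis elements of the first factor and `n` generators
which are mapped to new basis elements of the second factor, it becomes the standard map composed
with an automorphism.  In a suitable basis `x_a, y_b` of `F_{g+h}` the first component of `π(x_a)`
is the `a`-th basis element and `π(y_b) = (1, q_b)`.  Then `π` is stably standard if and only if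
the presentation of the trivial group with the relators `q_1, ..., q_h` is trivial up to
Andrews-Curtis moves and stabilisation.  All surjections `F_{2g} → F_g × F_g` are stably standard
if and only if the stable Andrews-Curtis conjecture is true.
-/

set_option autoImplicit false

namespace Pool.Agent.Results.MP_b5ead8_al.StableAndrewsCurtis

open MPb5ead8

theorem result :
    ((∀ (g : ℕ) (π : FreeGroup (Fin g ⊕ Fin g) →* FreeGroup (Fin g) × FreeGroup (Fin g)),
        Function.Surjective π → StablyStandard π) ↔
      ∀ (h : ℕ) (q : Fin h → FreeGroup (Fin h)), Subgroup.normalClosure (Set.range q) = ⊤ →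
        StablyTrivial q) ∧
    ∀ (g h : ℕ) (π : FreeGroup (Fin g ⊕ Fin h) →* FreeGroup (Fin g) × FreeGroup (Fin h)),
      Function.Surjective π → ∀ (β : MulAut (FreeGroup (Fin g ⊕ Fin h)))
      (q : Fin h → FreeGroup (Fin h)),
      (∀ a : Fin g, (π (β (FreeGroup.of (Sum.inl a)))).1 = FreeGroup.of a) →
      (∀ b : Fin h, π (β (FreeGroup.of (Sum.inr b))) = (1, q b)) →
      (StablyStandard π ↔ StablyTrivial q) :=
  final_all

end Pool.Agent.Results.MP_b5ead8_al.StableAndrewsCurtis
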