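import Mathlib
import Pool.Agent.Lib.MP_b5ead8_al.FinalAB

/-!
# Surjections onto `F_g × F_h` are standard after adding `min (g, h) - 1` generators

Let `π` be a surjective homomorphism from a free group of rank `g + h + m` onto `F_g × F_h`,
`g, h ≥ 1`, and let `k ≥ min (g, h) - 1`.  Extend `π` to the free group of rank `g + h + m + k` by
sending the `k` new generators to `1`.  The extended map is the standard map (the first `g`
generators go to the basis of the first factor, the next `h` generators to the basis of the second
factor, all the others to `1`) composed with an automorphism of the free group.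
-/

set_option autoImplicit false

namespace Pool.Agent.Results.MP_b5ead8_al.StableStandard

theorem result (g h m k : ℕ) (hg : 1 ≤ g) (hh : 1 ≤ h) (hk : min g h ≤ k + 1)
    (π : FreeGroup ((Fin g ⊕ Fin h) ⊕ Fin m) →* FreeGroup (Fin g) × FreeGroup (Fin h))
    (hπ : Function.Surjective π) :
    ∃ α : MulAut (FreeGroup ((Fin g ⊕ Fin h) ⊕ (Fin m ⊕ Fin k))),
      π.comp (FreeGroup.lift (Sum.elim (fun i => FreeGroup.of (Sum.inl i))
        (Sum.elim (fun j => FreeGroup.of (Sum.inr j)) (fun _ => 1)))) =
      (FreeGroup.lift (Sum.elim (Sum.elim
        (fun i : Fin g => ((FreeGroup.of i, 1) : FreeGroup (Fin g) × FreeGroup (Fin h)))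
        (fun j : Fin h => ((1, FreeGroup.of j) : FreeGroup (Fin g) × FreeGroup (Fin h))))
        (fun _ => 1))).comp α.toMonoidHom :=
  MPb5ead8.final_stable g h m k hg hh hk π hπ

end Pool.Agent.Results.MP_b5ead8_al.StableStandard
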